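import Pool.Agent.H30.VX.Targets

set_option autoImplicit false

namespace Pool.Agent.H36.VX

open Finset Pool.Agent.H48.CE Pool.Agent.H30.VR Pool.Agent.H30.VX

theorem ee_remove {V : Type} [DecidableEq V] (G : SimpleGraph V) (S P : Finset V) (hP : P ⊆ S) :
    ee G S S ≤ ee G (S \ P) (S \ P) + 2 * ee G P S := by
  have h1 : ee G S S = ee G (S \ P) S + ee G P S := by
    conv_lhs => rw [show ee G S S = ee G ((S \ P) ∪ P) S by rw [sdiff_union_of_subset hP]]
    exact ee_union_left sdiff_disjoint S
  have h2 : ee G (S \ P) S = ee G (S \ P) (S \ P) + ee G (S \ P) P := by
    conv_lhs => rw [show ee G (S \ P) S = ee G (S \ P) ((S \ P) ∪ P) by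
      rw [sdiff_union_of_subset hP]]
    exact ee_union_right sdiff_disjoint (S \ P)
  have h3 : ee G (S \ P) P = ee G P (S \ P) := ee_comm _ _
  have h4 : ee G P (S \ P) ≤ ee G P S := ee_mono (Subset.refl _) sdiff_subset
  omega

theorem pf_VCM : T_VCM := by
  classical
  intro V G S ν D
  induction ν generalizing S with
  | zero =>
    intro _
    left
    exact ⟨fun i => i.elim0, ⟨fun i => i.elim0, fun i => i.elim0, fun i => i.elim0,
      fun i => i.elim0, fun i => i.elim0, fun i => i.elim0⟩⟩
  | succ ν ih =>
    intro hD
    by_cases h0 : 0 < ee G S S
    · obtain ⟨a, ha, b, hb, hab⟩ := exists_adj_of_ee_pos h0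
      have hP : ({a, b} : Finset V) ⊆ S := by
        intro x hx
        rw [mem_insert, mem_singleton] at hx
        rcases hx with rfl | rfl
        · exact ha
        · exact hb
      have hD' : ∀ v ∈ S \ {a, b}, (nb G (S \ {a, b}) v).card ≤ D := fun v hv =>
        le_trans (card_le_card (nb_mono sdiff_subset v)) (hD v (sdiff_subset hv))
      rcases ih (S \ {a, b}) hD' with ⟨M, hM⟩ | h
      · left
        have hne : ∀ v ∈ S \ {a, b}, v ≠ a ∧ v ≠ b := by
          intro v hv
          rw [mem_sdiff, mem_insert, mem_singleton] at hv
          exact ⟨fun h => hv.2 (Or.inl h), fun h => hv.2 (Or.inr h)⟩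
        refine ⟨Fin.cons (a, b) M, ?_, ?_, ?_, ?_, ?_, ?_⟩
        · intro i
          refine Fin.cases ?_ (fun i => ?_) i
          · exact ha
          · rw [Fin.cons_succ]
            exact sdiff_subset (hM.l i)
        · intro i
          refine Fin.cases ?_ (fun i => ?_) i
          · exact hb
          · rw [Fin.cons_succ]
            exact sdiff_subset (hM.r i)
        · intro i
          refine Fin.cases ?_ (fun i => ?_) i
          · exact hab
          · rw [Fin.cons_succ]
            exact hM.adj i
        · intro i j
          refine Fin.cases ?_ (fun i => ?_) i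
          · refine Fin.cases ?_ (fun j => ?_) j
            · intro h
              exact absurd rfl h
            · intro _
              rw [Fin.cons_zero, Fin.cons_succ]
              exact fun h => (hne _ (hM.l j)).1 h.symm
          · refine Fin.cases ?_ (fun j => ?_) j
            · intro _
              rw [Fin.cons_zero, Fin.cons_succ]
              exact (hne _ (hM.l i)).1
            · intro h
              rw [Fin.cons_succ, Fin.cons_succ]
              exact hM.d1 i j (fun h' => h (by rw [h']))
        · intro i j
          refine Fin.cases ?_ (fun i => ?_) i
          · refine Fin.cases ?_ (fun j => ?_) j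
            · intro h
              exact absurd rfl h
            · intro _
              rw [Fin.cons_zero, Fin.cons_succ]
              exact fun h => (hne _ (hM.r j)).2 h.symm
          · refine Fin.cases ?_ (fun j => ?_) j
            · intro _
              rw [Fin.cons_zero, Fin.cons_succ]
              exact (hne _ (hM.r i)).2
            · intro h
              rw [Fin.cons_succ, Fin.cons_succ]
              exact hM.d2 i j (fun h' => h (by rw [h']))
        · intro i j
          refine Fin.cases ?_ (fun i => ?_) i
          · refine Fin.cases ?_ (fun j => ?_) j
            · exact hab.ne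
            · rw [Fin.cons_zero, Fin.cons_succ]
              exact fun h => (hne _ (hM.r j)).1 h.symm
          · refine Fin.cases ?_ (fun j => ?_) j
            · rw [Fin.cons_zero, Fin.cons_succ]
              exact (hne _ (hM.l i)).2
            · rw [Fin.cons_succ, Fin.cons_succ]
              exact hM.d3 i j
      · right
        have h1 := ee_remove G S {a, b} hP
        have h2 : ee G {a, b} S ≤ 2 * D := by
          have h3 : ee G ({a, b} : Finset V) S = (nb G S a).card + (nb G S b).card := by
            unfold ee
            rw [sum_pair hab.ne]
          have h4 := hD a ha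
          have h5 := hD b hb
          omega
        have h3 : 4 * (ν + 1) * D = 4 * ν * D + 4 * D := by ring
        omega
    · right
      have h1 : ee G S S = 0 := by omega
      rw [h1]
      exact Nat.zero_le _

end Pool.Agent.H36.VX
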